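import Mathlib
import Pool.Agent.H239R2.Cover.Hom
import Pool.Agent.H239R2.Cover.PlanarP1
import Pool.Agent.H239R2.Cover.PlanarP2

set_option autoImplicit false

/-!
Planar graphs of girth at least `4 k + 2` have homomorphisms to the cycle of length `2 k + 1`.
-/

namespace Pool.Agent.Results.MP_da739a_co.PlanarGirth

open Pool.Agent.H239R2.Planar (IsPlanar HasStraightLineDrawing planar_sparse line_sparse)
open Pool.Agent.H239R2.Cover (hom_of_sparse)

/-- For every `k ≥ 1`, every finite planar graph of girth at least `4 k + 2` has a homomorphism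
to the cycle `C_{2k+1}`. Planar means: some rotation system satisfies Euler's formula, or the
graph has a straight-line drawing in the plane. -/
theorem result :
    ∀ k : ℕ, 1 ≤ k → ∀ (V : Type) [Fintype V] (G : SimpleGraph V),
      (IsPlanar G ∨ HasStraightLineDrawing G) → ((4 * k + 2 : ℕ) : ℕ∞) ≤ G.egirth →
        Nonempty (G →g SimpleGraph.cycleGraph (2 * k + 1)) := by
  intro k hk V _ G hG hg
  have hg' : ((2 * (2 * k + 1) : ℕ) : ℕ∞) ≤ G.egirth := by
    rw [show 2 * (2 * k + 1) = 4 * k + 2 by ring]
    exact hg
  apply hom_of_sparse G k hk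
  intro A hA
  rcases hG with hG | hG
  · exact planar_sparse G hG (2 * k + 1) hg' A hA
  · exact line_sparse G hG (2 * k + 1) hg' A hA

end Pool.Agent.Results.MP_da739a_co.PlanarGirth
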