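import Mathlib
import Pool.Agent.H239R2.Cover.Hom
import Pool.Agent.H239R2.Cover.Sparse

set_option autoImplicit false

/-!
Graphs in which every nonempty vertex set `D` spans at most `(1 + 1/(2k)) (|D| - 1)` edges have
homomorphisms to the cycle of length `2 k + 1`.
-/

namespace Pool.Agent.Results.MP_da739a_co.SparseGraphs

open Pool.Agent.H239R2.Cover (hom_of_sparse rank_sparse_of_vertex_sparse)

/-- For every `k ≥ 1`, every finite graph in which the number of edges with both ends in any
nonempty vertex set `D` is at most `(1 + 1/(2k)) (|D| - 1)` has a homomorphism to the cycle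
`C_{2k+1}`. -/
theorem result :
    ∀ k : ℕ, 1 ≤ k → ∀ (V : Type) [Fintype V] (G : SimpleGraph V),
      (∀ D : Finset V, D.Nonempty →
        (Nat.card {e : Sym2 V // e ∈ G.edgeSet ∧ ∀ v ∈ e, v ∈ D} : ℝ)
          ≤ (1 + 1 / (2 * k)) * ((D.card : ℝ) - 1)) →
        Nonempty (G →g SimpleGraph.cycleGraph (2 * k + 1)) := by
  intro k hk V _ G hG
  apply hom_of_sparse G k hk
  intro A hA
  have h1 := rank_sparse_of_vertex_sparse G (2 * k) (2 * k + 1) (by
    intro D hD
    have h2 := hG D hD
    have hkR : (0:ℝ) < 2 * k := by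
      have : (1:ℝ) ≤ k := by exact_mod_cast hk
      linarith
    have h3 := mul_le_mul_of_nonneg_left h2 hkR.le
    have h4 : (2 * (k : ℝ)) * ((1 + 1 / (2 * k)) * ((D.card : ℝ) - 1))
        = (2 * k + 1) * ((D.card : ℝ) - 1) := by
      field_simp
    rw [h4] at h3
    have h5 : ((2 * k * Nat.card {e : Sym2 V // e ∈ G.edgeSet ∧ ∀ v ∈ e, v ∈ D} + (2 * k + 1) : ℕ)
        : ℝ) ≤ (((2 * k + 1) * D.card : ℕ) : ℝ) := by
      push_cast
      linarith
    exact_mod_cast h5) A hA
  calc (2 * k + 1) * A.card = 2 * k * A.card + A.card := by ring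
    _ ≤ _ := Nat.add_le_add_right h1 _

end Pool.Agent.Results.MP_da739a_co.SparseGraphs
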